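import Mathlib

/-!
# o-conjugacy is partition covering

Choose an abelian group structure on the set of blocks and let `a * b` be a representative of the
sum of the blocks of `a` and `b`.
-/

set_option autoImplicit false

universe u

namespace Pool.Agent.Results.MP_45ad35_al.PartitionCovering

/-- o-conjugacy: `a g = g b` and `b h = h a` for some `g, h` in the semigroup with an adjoined
identity -/
def OConj {S : Type u} [Semigroup S] (a b : S) : Prop :=
  ∃ g h : WithOne S, (a : WithOne S) * g = g * b ∧ (b : WithOne S) * h = h * a

lemma oConj_iff {S : Type u} [Semigroup S] (a b : S) :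
    OConj a b ↔ a = b ∨ ∃ g h : S, a * g = g * b ∧ b * h = h * a := by
  constructor
  · rintro ⟨g, h, h1, h2⟩
    induction g using WithOne.recOneCoe with
    | one =>
      left
      rw [mul_one, one_mul] at h1
      exact WithOne.coe_inj.1 h1
    | coe g =>
      induction h using WithOne.recOneCoe with
      | one =>
        left
        rw [mul_one, one_mul] at h2
        exact (WithOne.coe_inj.1 h2).symm
      | coe h =>
        right
        refine ⟨g, h, ?_, ?_⟩
        · exact_mod_cast h1
        · exact_mod_cast h2
  · rintro (rfl | ⟨g, h, h1, h2⟩)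
    · exact ⟨1, 1, by simp, by simp⟩
    · refine ⟨g, h, ?_, ?_⟩
      · exact_mod_cast congrArg (fun x : S => (x : WithOne S)) h1
      · exact_mod_cast congrArg (fun x : S => (x : WithOne S)) h2

lemma exists_addCommGroup (Q : Type u) [Nonempty Q] : Nonempty (AddCommGroup Q) := by
  cases finite_or_infinite Q with
  | inl h =>
    obtain ⟨n, ⟨e⟩⟩ := Finite.exists_equiv_fin Q
    cases n with
    | zero =>
      obtain ⟨q⟩ := ‹Nonempty Q›
      exact (IsEmpty.false (e q)).elim
    | succ n =>
      have e' : Q ≃ ZMod (n + 1) := e
      exact ⟨e'.addCommGroup⟩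
  | inr h =>
    obtain ⟨f⟩ : Nonempty (Field Q) := Infinite.nonempty_field
    exact ⟨inferInstance⟩

/-- **o-conjugacy is partition covering.** -/
theorem result (X : Type u) [Nonempty X] (τ : Setoid X) :
    ∃ _ : Semigroup X, ∀ a b : X, OConj a b ↔ τ a b := by
  have hne : Nonempty (Quotient τ) := Nonempty.map (Quotient.mk τ) inferInstance
  obtain ⟨G⟩ := exists_addCommGroup (Quotient τ)
  let r : Quotient τ → X := Quotient.out
  let p : X → Quotient τ := Quotient.mk τ
  have hr : ∀ q, p (r q) = q := fun q => Quotient.out_eq q
  have hp : ∀ a b, p a = p b ↔ τ a b := fun a b => Quotient.eq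
  let S : Semigroup X :=
    { mul := fun a b => r (p a + p b)
      mul_assoc := fun a b c => by
        show r (p (r (p a + p b)) + p c) = r (p a + p (r (p b + p c)))
        rw [hr, hr, add_assoc] }
  have hmul : ∀ a b : X, a * b = r (p a + p b) := fun a b => rfl
  refine ⟨S, fun a b => ?_⟩
  rw [oConj_iff, ← hp]
  constructor
  · rintro (rfl | ⟨g, h, h1, -⟩)
    · rfl
    · rw [hmul, hmul] at h1
      have h2 := congrArg p h1
      rw [hr, hr, add_comm (p g)] at h2
      exact add_right_cancel h2
  · intro h
    right
    refine ⟨a, a, ?_, ?_⟩ <;> rw [hmul, hmul, h]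

end Pool.Agent.Results.MP_45ad35_al.PartitionCovering
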